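import Mathlib

/-!
# The value of the min-max-removal game on colored forest posets

For a colored poset, White (Left) and Black (Right) alternately delete an element of their own
color that is minimal or maximal among the elements still present. We determine the integer value
of this game for every colored forest poset.
-/

set_option linter.unusedSectionVars false

open Finset

namespace Pool.Agent.Results.MP_488bb9_co.MinMaxForest

universe u v

/-! ### Partizan games and Conway equality -/

/-- A partizan ruleset on a set `X` of positions: `left p q` says that Left can move from `p` to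
`q`, and `right p q` says that Right can move from `p` to `q`. -/
structure Ruleset (X : Type u) where
  left : X → X → Prop
  right : X → X → Prop

/-- The same ruleset with the roles of Left and Right exchanged. -/
def Ruleset.swap {X : Type u} (A : Ruleset X) : Ruleset X where
  left := A.right
  right := A.left

/-- The difference `A - B` of two rulesets: a player moves either in `A`, or in `B` with the
roles of the two players exchanged. -/
def Ruleset.sub {X : Type u} {Y : Type v} (A : Ruleset X) (B : Ruleset Y) : Ruleset (X × Y) where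
  left p q := (A.left p.1 q.1 ∧ q.2 = p.2) ∨ (q.1 = p.1 ∧ B.right p.2 q.2)
  right p q := (A.right p.1 q.1 ∧ q.2 = p.2) ∨ (q.1 = p.1 ∧ B.left p.2 q.2)

/-- `LeftWins A b p`: in the ruleset `A`, from the position `p`, Left can force a win under the
rule that a player with no move loses; Left moves first if `b = true`, and Right moves first if
`b = false`. -/
inductive LeftWins {X : Type u} (A : Ruleset X) : Bool → X → Prop
  | toMove (p q : X) : A.left p q → LeftWins A false q → LeftWins A true p
  | waiting (p : X) : (∀ q : X, A.right p q → LeftWins A true q) → LeftWins A false p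

/-- Conway equality of the position `p` of `A` and the position `q` of `B`: the difference
`p - q` is a win for the player who moves second, whoever that is. -/
def SameValue {X : Type u} {Y : Type v} (A : Ruleset X) (p : X) (B : Ruleset Y) (q : Y) : Prop :=
  LeftWins (A.sub B) false (p, q) ∧ LeftWins (A.sub B).swap false (p, q)

/-- The integers as games, in canonical form: from `m > 0` Left can move to `m - 1`, from `m < 0`
Right can move to `m + 1`, and there is no other move. -/
def integerGame : Ruleset ℤ where
  left m n := 0 < m ∧ n = m - 1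
  right m n := m < 0 ∧ n = m + 1

/-! ### The game and the formula -/

section Defs

variable {α : Type u} [PartialOrder α]

/-- The min-max-removal game on a colored poset (`white x = true`: the element `x` is white;
`white x = false`: it is black). A position is the set `S` of the elements still present. A move
deletes an element of `S` of the mover's color that is minimal or maximal in `S`.
White is Left and Black is Right. -/
def minMaxRemoval [DecidableEq α] (white : α → Bool) : Ruleset (Finset α) where
  left S T := ∃ a ∈ S, white a = true ∧ ((∀ b ∈ S, ¬ b < a) ∨ (∀ b ∈ S, ¬ a < b)) ∧ T = S.erase a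
  right S T := ∃ a ∈ S, white a = false ∧ ((∀ b ∈ S, ¬ b < a) ∨ (∀ b ∈ S, ¬ a < b)) ∧
    T = S.erase a

/-- A blocking triple: `x ⋖ y ⋖ z` with `x`, `y` of the same color and `z` of the other color. -/
def Blocking (white : α → Bool) (x y z : α) : Prop :=
  x ⋖ y ∧ y ⋖ z ∧ white x = white y ∧ white y ≠ white z

/-- `x` lies in the essential part: no blocking triple lies (weakly) above `x`. The set of these
`x` is the largest upper set that contains no blocking triple. -/
def Essential (white : α → Bool) (x : α) : Prop :=
  ∀ a b c : α, x ≤ a → ¬ Blocking white a b c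

/-- `+1` for white and `-1` for black. -/
def sgn (b : Bool) : ℤ := if b = true then 1 else -1

open Classical in
/-- The number `e(x)`: it is `0` if `x` is essential; otherwise it is `max 0 (1 + s)` if `x` is
white and `min 0 (-1 + s)` if `x` is black, where `s` is the sum of `e(y)` over the elements `y`
that cover `x`. -/
noncomputable def excess [Fintype α] (white : α → Bool) (x : α) : ℤ :=
  if Essential white x then 0
  else if white x = true then max 0 (1 + ∑ y : {y : α // x ⋖ y}, excess white y.1)
  else min 0 (-1 + ∑ y : {y : α // x ⋖ y}, excess white y.1)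
termination_by (Finset.univ.filter (fun z : α => x < z)).card
decreasing_by
  all_goals
    exact Finset.card_lt_card ((Finset.ssubset_iff_of_subset
      (Finset.monotone_filter_right _ fun z _ hz => y.2.lt.trans hz)).2
      ⟨y.1, Finset.mem_filter.2 ⟨Finset.mem_univ _, y.2.lt⟩,
        fun h => lt_irrefl _ (Finset.mem_filter.1 h).2⟩)

end Defs

/-! ### The relative version of the formula on a set `S` of elements still present -/

section Rel

open Classical

variable {α : Type u} [PartialOrder α] [Fintype α] [DecidableEq α]

/-- No blocking triple inside `S` lies above `x`. -/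
def EssIn (white : α → Bool) (S : Finset α) (x : α) : Prop :=
  ∀ a b c : α, a ∈ S → b ∈ S → c ∈ S → x ≤ a → ¬ Blocking white a b c

/-- The one-step recursion. -/
def phi (b : Bool) (s : ℤ) : ℤ := if b = true then max 0 (1 + s) else min 0 (-1 + s)

/-- The relative excess. -/
noncomputable def exc (white : α → Bool) (S : Finset α) (x : α) : ℤ :=
  if EssIn white S x then 0
  else phi (white x) (∑ y : {y : α // x ⋖ y ∧ y ∈ S}, exc white S y.1)
termination_by (Finset.univ.filter (fun z : α => x < z)).card
decreasing_by
  all_goals
    exact Finset.card_lt_card ((Finset.ssubset_iff_of_subset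
      (Finset.monotone_filter_right _ fun z _ hz => y.2.1.lt.trans hz)).2
      ⟨y.1, Finset.mem_filter.2 ⟨Finset.mem_univ _, y.2.1.lt⟩,
        fun h => lt_irrefl _ (Finset.mem_filter.1 h).2⟩)

/-- The sum of the excesses of the covers of `x` in `S`. -/
noncomputable def cs (white : α → Bool) (S : Finset α) (x : α) : ℤ :=
  ∑ y ∈ S.filter (fun y => x ⋖ y), exc white S y

theorem exc_eq (white : α → Bool) (S : Finset α) (x : α) :
    exc white S x = if EssIn white S x then 0 else phi (white x) (cs white S x) := by
  rw [exc]
  congr 1
  congr 1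
  unfold cs
  rw [← Finset.sum_subtype (p := fun y => x ⋖ y ∧ y ∈ S) (f := fun y => exc white S y)]
  intro y
  simp [and_comm]

theorem exc_ess {white : α → Bool} {S : Finset α} {x : α} (h : EssIn white S x) :
    exc white S x = 0 := by
  rw [exc_eq, if_pos h]

theorem exc_not {white : α → Bool} {S : Finset α} {x : α} (h : ¬ EssIn white S x) :
    exc white S x = phi (white x) (cs white S x) := by
  rw [exc_eq, if_neg h]

theorem ess_up {white : α → Bool} {S : Finset α} {x y : α} (h : EssIn white S x) (hxy : x ≤ y) :
    EssIn white S y := fun a b c ha hb hc hya => h a b c ha hb hc (hxy.trans hya)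

theorem ess_erase {white : α → Bool} {S : Finset α} {x : α} (a : α) (h : EssIn white S x) :
    EssIn white (S.erase a) x :=
  fun u v w hu hv hw hxu => h u v w (mem_of_mem_erase hu) (mem_of_mem_erase hv)
    (mem_of_mem_erase hw) hxu

theorem ess_local {white : α → Bool} {S : Finset α} {x a : α} (hxa : ¬ x ≤ a) :
    EssIn white (S.erase a) x ↔ EssIn white S x := by
  refine ⟨fun h u v w hu hv hw hxu hB => ?_, ess_erase a⟩
  have h1 : u ≠ a := fun e => hxa (e ▸ hxu)
  have h2 : v ≠ a := fun e => hxa (e ▸ hxu.trans hB.1.lt.le)
  have h3 : w ≠ a := fun e => hxa (e ▸ hxu.trans (hB.1.lt.le.trans hB.2.1.lt.le))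
  exact h u v w (mem_erase.2 ⟨h1, hu⟩) (mem_erase.2 ⟨h2, hv⟩) (mem_erase.2 ⟨h3, hw⟩) hxu hB

theorem exc_local {white : α → Bool} {S : Finset α} {a : α} (x : α) (hxa : ¬ x ≤ a) :
    exc white (S.erase a) x = exc white S x := by
  induction x using WellFoundedGT.induction with
  | ind x ih =>
    rw [exc_eq, exc_eq]
    have : cs white (S.erase a) x = cs white S x := by
      unfold cs
      have hf : (S.erase a).filter (fun y => x ⋖ y) = S.filter (fun y => x ⋖ y) := by
        ext y
        simp only [mem_filter, mem_erase]
        constructor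
        · rintro ⟨⟨_, h⟩, h'⟩; exact ⟨h, h'⟩
        · rintro ⟨h, h'⟩
          exact ⟨⟨fun e => hxa (e ▸ h'.lt.le), h⟩, h'⟩
      rw [hf]
      refine Finset.sum_congr rfl fun y hy => ?_
      have hy' := (mem_filter.1 hy).2
      exact ih y hy'.lt fun h => hxa (hy'.lt.le.trans h)
    rw [this]
    by_cases h : EssIn white S x
    · rw [if_pos h, if_pos ((ess_local hxa).2 h)]
    · rw [if_neg h, if_neg (fun h' => h ((ess_local hxa).1 h'))]

/-- The value of the formula at the position `S`. -/
noncomputable def val (white : α → Bool) (S : Finset α) : ℤ :=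
  ∑ x ∈ S.filter (fun x => EssIn white S x), sgn (white x) +
    ∑ x ∈ S.filter (fun x => ∀ b ∈ S, ¬ b < x), exc white S x

/-- order-convexity of a position -/
def Conv (S : Finset α) : Prop := ∀ x y z : α, x ∈ S → z ∈ S → x < y → y < z → y ∈ S

/-- in a forest poset elements below a given one are comparable -/
theorem chain (forest : ∀ x y z : α, x ⋖ z → y ⋖ z → x = y) :
    ∀ a x y : α, x ≤ a → y ≤ a → x ≤ y ∨ y ≤ x := by
  intro a
  induction a using WellFoundedLT.induction with
  | ind a ih =>
    intro x y hx hy
    rcases hx.eq_or_lt with rfl | hx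
    · exact Or.inr hy
    rcases hy.eq_or_lt with rfl | hy
    · exact Or.inl hx.le
    obtain ⟨p, hxp, hp⟩ := exists_le_covBy_of_lt hx
    obtain ⟨q, hyq, hq⟩ := exists_le_covBy_of_lt hy
    have : p = q := forest p q a hp hq
    subst this
    exact ih p hp.lt x y hxp hyq

theorem conv_erase {S : Finset α} (hS : Conv S) {a : α}
    (ha : (∀ b ∈ S, ¬ b < a) ∨ (∀ b ∈ S, ¬ a < b)) : Conv (S.erase a) := by
  intro x y z hx hz hxy hyz
  have hx' := mem_of_mem_erase hx
  have hz' := mem_of_mem_erase hz
  refine mem_erase.2 ⟨fun e => ?_, hS x y z hx' hz' hxy hyz⟩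
  subst e
  rcases ha with ha | ha
  · exact ha x hx' hxy
  · exact ha z hz' hyz

/-- Deleting a minimal element. -/
theorem val_erase_min (forest : ∀ x y z : α, x ⋖ z → y ⋖ z → x = y) (white : α → Bool)
    {S : Finset α} (hS : Conv S) {r : α} (hr : r ∈ S) (hmin : ∀ b ∈ S, ¬ b < r) :
    val white S = val white (S.erase r) + (if EssIn white S r then sgn (white r) else 0)
      + exc white S r - cs white S r := by
  have hnot : ∀ x ∈ S, x ≠ r → ¬ x ≤ r := fun x hx hne hle => hmin x hx (lt_of_le_of_ne hle hne)
  -- the essential part
  have h1 : ∑ x ∈ S.filter (fun x => EssIn white S x), sgn (white x) =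
      ∑ x ∈ (S.erase r).filter (fun x => EssIn white (S.erase r) x), sgn (white x) +
        (if EssIn white S r then sgn (white r) else 0) := by
    have e1 : (S.erase r).filter (fun x => EssIn white (S.erase r) x) =
        (S.filter (fun x => EssIn white S x)).erase r := by
      ext x
      simp only [mem_filter, mem_erase]
      constructor
      · rintro ⟨⟨h1, h2⟩, h3⟩
        exact ⟨h1, h2, (ess_local (hnot x h2 h1)).1 h3⟩
      · rintro ⟨h1, h2, h3⟩
        exact ⟨⟨h1, h2⟩, (ess_local (hnot x h2 h1)).2 h3⟩
    rw [e1]
    by_cases h : EssIn white S r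
    · rw [if_pos h, Finset.sum_erase_add _ _ (mem_filter.2 ⟨hr, h⟩)]
    · rw [if_neg h, add_zero, Finset.erase_eq_of_notMem]
      simp [h]
  -- the minimal part
  have h2 : ∑ x ∈ (S.erase r).filter (fun x => ∀ b ∈ S.erase r, ¬ b < x), exc white (S.erase r) x
      = ∑ x ∈ S.filter (fun x => ∀ b ∈ S, ¬ b < x), exc white S x - exc white S r
        + cs white S r := by
    have e2 : (S.erase r).filter (fun x => ∀ b ∈ S.erase r, ¬ b < x) =
        ((S.filter (fun x => ∀ b ∈ S, ¬ b < x)).erase r) ∪ S.filter (fun y => r ⋖ y) := by
      ext x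
      simp only [mem_filter, mem_erase, mem_union]
      constructor
      · rintro ⟨⟨hne, hx⟩, hx2⟩
        by_cases hrx : r < x
        · right
          refine ⟨hx, hrx, fun z hrz hzx => ?_⟩
          exact hx2 z ⟨hrz.ne', hS r z x hr hx hrz hzx⟩ hzx
        · left
          refine ⟨hne, hx, fun b hb hbx => ?_⟩
          by_cases hbr : b = r
          · exact hrx (hbr ▸ hbx)
          · exact hx2 b ⟨hbr, hb⟩ hbx
      · rintro (⟨hne, hx, hx2⟩ | ⟨hx, hrx⟩)
        · exact ⟨⟨hne, hx⟩, fun b hb => hx2 b hb.2⟩
        · refine ⟨⟨hrx.lt.ne', hx⟩, fun b hb hbx => ?_⟩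
          obtain ⟨p, hbp, hp⟩ := exists_le_covBy_of_lt hbx
          have : p = r := forest p r x hp hrx
          subst this
          exact hmin b hb.2 (lt_of_le_of_ne hbp hb.1)
    have hdisj : Disjoint ((S.filter (fun x => ∀ b ∈ S, ¬ b < x)).erase r)
        (S.filter (fun y => r ⋖ y)) := by
      rw [Finset.disjoint_left]
      intro x hx hx'
      simp only [mem_filter, mem_erase] at hx hx'
      exact hx.2.2 r hr hx'.2.lt
    rw [e2, Finset.sum_union hdisj]
    have e3 : ∑ x ∈ (S.filter (fun x => ∀ b ∈ S, ¬ b < x)).erase r, exc white (S.erase r) x =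
        ∑ x ∈ (S.filter (fun x => ∀ b ∈ S, ¬ b < x)).erase r, exc white S x := by
      refine Finset.sum_congr rfl fun x hx => ?_
      simp only [mem_filter, mem_erase] at hx
      exact exc_local x (hnot x hx.2.1 hx.1)
    have e4 : ∑ x ∈ S.filter (fun y => r ⋖ y), exc white (S.erase r) x = cs white S r := by
      refine Finset.sum_congr rfl fun x hx => ?_
      simp only [mem_filter] at hx
      exact exc_local x (hnot x hx.1 hx.2.lt.ne')
    rw [e3, e4]
    have e5 := Finset.sum_erase_add (S.filter (fun x => ∀ b ∈ S, ¬ b < x)) (fun x => exc white S x)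
      (a := r) (mem_filter.2 ⟨hr, hmin⟩)
    linarith
  unfold val
  rw [h1, h2]
  ring

/-- The signed number of the elements above `x` that become essential when `a` is deleted. -/
noncomputable def gain (white : α → Bool) (S : Finset α) (a x : α) : ℤ :=
  ∑ z ∈ (S.erase a).filter (fun z => (EssIn white (S.erase a) z ∧ ¬ EssIn white S z) ∧ x ≤ z),
    sgn (white z)

theorem gain_step (forest : ∀ x y z : α, x ⋖ z → y ⋖ z → x = y) (white : α → Bool)
    {S : Finset α} {a x y : α} (hx : x ∈ S) (hxy : x ⋖ y) (hya : y ≤ a) :
    gain white S a x = gain white S a y +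
      (if EssIn white (S.erase a) x ∧ ¬ EssIn white S x then sgn (white x) else 0) := by
  unfold gain
  have hxa : x ≠ a := fun e => absurd (hxy.lt.trans_le hya) (e ▸ lt_irrefl _)
  by_cases h : EssIn white (S.erase a) x ∧ ¬ EssIn white S x
  · rw [if_pos h]
    have : (S.erase a).filter
        (fun z => (EssIn white (S.erase a) z ∧ ¬ EssIn white S z) ∧ x ≤ z) =
        insert x ((S.erase a).filter
          (fun z => (EssIn white (S.erase a) z ∧ ¬ EssIn white S z) ∧ y ≤ z)) := by
      ext z
      simp only [mem_filter, mem_insert]
      constructor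
      · rintro ⟨hz, hz2, hxz⟩
        have hza : z ≤ a := by
          by_contra hc
          exact hz2.2 ((ess_local hc).1 hz2.1)
        rcases chain forest a z y hza hya with hc | hc
        · rcases hc.eq_or_lt with rfl | hc
          · exact Or.inr ⟨hz, hz2, le_rfl⟩
          · left
            rcases hxz.eq_or_lt with rfl | hxz
            · rfl
            · exact absurd hc (hxy.2 hxz)
        · exact Or.inr ⟨hz, hz2, hc⟩
      · rintro (rfl | ⟨hz, hz2, hyz⟩)
        · exact ⟨mem_erase.2 ⟨hxa, hx⟩, h, le_rfl⟩
        · exact ⟨hz, hz2, hxy.lt.le.trans hyz⟩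
    rw [this, Finset.sum_insert, add_comm]
    simp only [mem_filter, not_and]
    intro _ _ hc
    exact absurd hxy.lt (not_lt_of_ge hc)
  · rw [if_neg h, add_zero]
    refine Finset.sum_congr ?_ fun _ _ => rfl
    ext z
    simp only [mem_filter]
    constructor
    · rintro ⟨hz, hz2, hxz⟩
      have hza : z ≤ a := by
        by_contra hc
        exact hz2.2 ((ess_local hc).1 hz2.1)
      refine ⟨hz, hz2, ?_⟩
      rcases chain forest a z y hza hya with hc | hc
      · rcases hc.eq_or_lt with rfl | hc
        · exact le_rfl
        · rcases hxz.eq_or_lt with rfl | hxz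
          · exact absurd hz2 h
          · exact absurd hc (hxy.2 hxz)
      · exact hc
    · rintro ⟨hz, hz2, hyz⟩
      exact ⟨hz, hz2, hxy.lt.le.trans hyz⟩

theorem gain_top (white : α → Bool) {S : Finset α} {a : α} (hmax : ∀ b ∈ S, ¬ a < b) :
    gain white S a a = 0 := by
  unfold gain
  refine Finset.sum_eq_zero fun z hz => ?_
  simp only [mem_filter, mem_erase] at hz
  exact absurd (lt_of_le_of_ne hz.2.2 (Ne.symm hz.1.1)) (hmax z hz.1.2)

theorem ess_max (white : α → Bool) {S : Finset α} {a : α} (hmax : ∀ b ∈ S, ¬ a < b) :
    EssIn white S a :=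
  fun _ v _ _ hv _ hau hB => hmax v hv (hau.trans_lt hB.1.lt)

theorem phi_mono_lip (b : Bool) {s t g : ℤ} (h : g + s ≤ t) (hg : g ≤ 0) :
    g + phi b s ≤ phi b t := by
  unfold phi
  split_ifs <;> omega

/-- The covers of `x`: split off the cover `y`. -/
theorem cs_split (forest : ∀ x y z : α, x ⋖ z → y ⋖ z → x = y) (white : α → Bool)
    {S : Finset α} {a x y : α} (hy : y ∈ S) (hxy : x ⋖ y) (hya : y ≤ a) :
    cs white S x = exc white S y +
      ∑ v ∈ (S.filter (fun v => x ⋖ v)).erase y, exc white S v ∧
    cs white (S.erase a) x = (if y = a then 0 else exc white (S.erase a) y) +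
      ∑ v ∈ (S.filter (fun v => x ⋖ v)).erase y, exc white S v := by
  have hmem : y ∈ S.filter (fun v => x ⋖ v) := mem_filter.2 ⟨hy, hxy⟩
  have key : ∀ v ∈ (S.filter (fun v => x ⋖ v)).erase y, ¬ v ≤ a := by
    intro v hv hva
    simp only [mem_erase, mem_filter] at hv
    rcases chain forest a v y hva hya with h | h
    · exact hxy.2 hv.2.2.lt (lt_of_le_of_ne h hv.1)
    · exact hv.2.2.2 hxy.lt (lt_of_le_of_ne h (Ne.symm hv.1))
  refine ⟨?_, ?_⟩
  · unfold cs
    rw [← Finset.add_sum_erase _ _ hmem]
  · unfold cs
    have hsum : ∑ v ∈ (S.filter (fun v => x ⋖ v)).erase y, exc white S v =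
        ∑ v ∈ (S.filter (fun v => x ⋖ v)).erase y, exc white (S.erase a) v :=
      Finset.sum_congr rfl fun v hv => (exc_local v (key v hv)).symm
    rw [hsum]
    split_ifs with h
    · subst h
      rw [zero_add]
      refine Finset.sum_congr ?_ fun _ _ => rfl
      ext v
      simp only [mem_filter, mem_erase]
      tauto
    · have hmem' : y ∈ (S.erase a).filter (fun v => x ⋖ v) :=
        mem_filter.2 ⟨mem_erase.2 ⟨h, hy⟩, hxy⟩
      rw [← Finset.add_sum_erase _ _ hmem']
      congr 1
      refine Finset.sum_congr ?_ fun _ _ => rfl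
      ext v
      simp only [mem_filter, mem_erase]
      constructor
      · rintro ⟨h1, ⟨_, h2⟩, h3⟩; exact ⟨h1, h2, h3⟩
      · rintro ⟨h1, h2, h3⟩
        refine ⟨h1, ⟨fun e => ?_, h2⟩, h3⟩
        exact key v (by simp only [mem_erase, mem_filter]; exact ⟨h1, h2, h3⟩) e.le

/-- If `x` becomes essential, all covers of `x` outside the path to `a` have excess zero. -/
theorem rest_zero (white : α → Bool) (forest : ∀ x y z : α, x ⋖ z → y ⋖ z → x = y)
    {S : Finset α} {a x y : α} (hxy : x ⋖ y) (hya : y ≤ a)
    (h : EssIn white (S.erase a) x) :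
    ∑ v ∈ (S.filter (fun v => x ⋖ v)).erase y, exc white S v = 0 := by
  refine Finset.sum_eq_zero fun v hv => ?_
  simp only [mem_erase, mem_filter] at hv
  have hva : ¬ v ≤ a := by
    intro hva
    rcases chain forest a v y hva hya with h | h
    · exact hxy.2 hv.2.2.lt (lt_of_le_of_ne h hv.1)
    · exact hv.2.2.2 hxy.lt (lt_of_le_of_ne h (Ne.symm hv.1))
  exact exc_ess ((ess_local hva).1 (ess_up h hv.2.2.lt.le))

/-- If deleting the white maximal element `a` makes `x` essential, then the only blocking triple
above `x` ends in `a`. -/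
theorem new_ess (white : α → Bool) (forest : ∀ x y z : α, x ⋖ z → y ⋖ z → x = y)
    {S : Finset α} {a x : α} (hmax : ∀ b ∈ S, ¬ a < b) (hw : white a = true)
    (h' : EssIn white (S.erase a) x) (h : ¬ EssIn white S x) :
    ∃ u v, u ∈ S ∧ v ∈ S ∧ x ≤ u ∧ u ⋖ v ∧ v ⋖ a ∧ white u = false ∧ white v = false ∧
      EssIn white S v := by
  unfold EssIn at h
  push Not at h
  obtain ⟨u, v, w, hu, hv, hwS, hxu, hB⟩ := h
  have hua : u ≠ a := fun e => hmax v hv (e ▸ hB.1.lt)
  have hva : v ≠ a := fun e => hmax w hwS (e ▸ hB.2.1.lt)
  have hwa : w = a := by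
    by_contra hne
    exact h' u v w (mem_erase.2 ⟨hua, hu⟩) (mem_erase.2 ⟨hva, hv⟩) (mem_erase.2 ⟨hne, hwS⟩) hxu hB
  subst hwa
  have hv' : white v = false := by
    have := hB.2.2.2
    rw [hw] at this
    simpa using this
  refine ⟨u, v, hu, hv, hxu, hB.1, hB.2.1, hB.2.2.1.trans hv', hv', ?_⟩
  intro u2 v2 w2 hu2 hv2 hw2 hvu2 hB2
  have h1 : u2 ≠ w := fun e => hmax v2 hv2 (e ▸ hB2.1.lt)
  have h2 : v2 ≠ w := fun e => hmax w2 hw2 (e ▸ hB2.2.1.lt)
  have h3 : w2 ≠ w := by
    rintro rfl
    have : v2 = v := forest _ _ _ hB2.2.1 hB.2.1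
    subst this
    exact absurd hB2.1.lt (not_lt_of_ge hvu2)
  exact h' u2 v2 w2 (mem_erase.2 ⟨h1, hu2⟩) (mem_erase.2 ⟨h2, hv2⟩) (mem_erase.2 ⟨h3, hw2⟩)
    (hxu.trans (hB.1.lt.le.trans hvu2)) hB2

/-- The key estimate along the path down from a deleted white maximal element. -/
theorem key (forest : ∀ x y z : α, x ⋖ z → y ⋖ z → x = y) (white : α → Bool)
    {S : Finset α} (hS : Conv S) {a : α} (ha : a ∈ S) (hmax : ∀ b ∈ S, ¬ a < b)
    (hw : white a = true) (x : α) (hx : x ∈ S) (hxa : x < a) :
    gain white S a x ≤ 0 ∧
    gain white S a x + exc white (S.erase a) x ≤ exc white S x ∧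
    (EssIn white (S.erase a) x → ¬ EssIn white S x → exc white S x ≤ 0 ∧
      (white x = false → exc white S x ≤ -1) ∧
      (white x = true → ∃ y ∈ S.erase a, x ⋖ y ∧ white y = false)) := by
  induction x using WellFoundedGT.induction with
  | ind x ih =>
    obtain ⟨y, hxy, hya⟩ := exists_covBy_le_of_lt hxa
    have hyS : y ∈ S := by
      rcases hya.eq_or_lt with rfl | h
      · exact ha
      · exact hS x y a hx ha hxy.lt h
    have hgs := gain_step forest white (S := S) hx hxy hya
    obtain ⟨hc1, hc2⟩ := cs_split forest white hyS hxy hya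
    by_cases hE : EssIn white S x
    · -- `x` is essential before the deletion
      have hE' := ess_erase a hE
      have hgy : gain white S a y = 0 := by
        unfold gain
        refine Finset.sum_eq_zero fun z hz => ?_
        simp only [mem_filter, mem_erase] at hz
        exact absurd (ess_up hE (hxy.lt.le.trans hz.2.2)) hz.2.1.2
      rw [hgs, hgy, if_neg (fun h => h.2 hE), exc_ess hE, exc_ess hE']
      exact ⟨by simp, by simp, fun _ h => absurd hE h⟩
    by_cases hE' : EssIn white (S.erase a) x
    · -- `x` becomes essential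
      rw [if_pos ⟨hE', hE⟩] at hgs
      have hr := rest_zero white forest (S := S) hxy hya hE'
      rw [hr, add_zero] at hc1
      obtain ⟨u, v, hu, hv, hxu, huv, hva, hwu, hwv, hEv⟩ := new_ess white forest hmax hw hE' hE
      rcases hxu.eq_or_lt with rfl | hxu
      · -- `x` is the grandparent of `a`
        have hvy : y = v := by
          rcases chain forest a y v hya hva.lt.le with h | h
          · rcases h.eq_or_lt with h | h
            · exact h
            · exact absurd h (huv.2 hxy.lt)
          · rcases h.eq_or_lt with h | h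
            · exact h.symm
            · exact absurd h (hxy.2 huv.lt)
        subst hvy
        have hgy : gain white S a y = 0 := by
          unfold gain
          refine Finset.sum_eq_zero fun z hz => ?_
          simp only [mem_filter, mem_erase] at hz
          exact absurd (ess_up hEv hz.2.2) hz.2.1.2
        rw [exc_ess hEv] at hc1
        have he : exc white S x = -1 := by
          rw [exc_not hE, hc1, hwu]; simp [phi]
        rw [hgs, hgy, exc_ess hE', he, hwu]
        simp [sgn]
      · -- `x` is further down
        have hyu : y ≤ u := by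
          have hua : u ≤ a := huv.lt.le.trans hva.lt.le
          rcases chain forest a y u hya hua with h | h
          · exact h
          · rcases h.eq_or_lt with h | h
            · exact h.symm.le
            · exact absurd h (hxy.2 hxu)
        have hya' : y < a := hyu.trans_lt (huv.lt.trans hva.lt)
        have hEy : ¬ EssIn white S y := by
          intro h
          refine h u v a hu hv ha hyu ⟨huv, hva, by rw [hwu, hwv], by rw [hwv, hw]; simp⟩
        have hEy' : EssIn white (S.erase a) y := ess_up hE' hxy.lt.le
        obtain ⟨g1, g2, g3⟩ := ih y hxy.lt hyS hya'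
        obtain ⟨k1, k2, k3⟩ := g3 hEy' hEy
        rw [exc_ess hEy', add_zero] at g2
        rw [exc_ess hE', add_zero, exc_not hE, hc1, hgs]
        have hyS' : y ∈ S.erase a := mem_erase.2 ⟨hya'.ne, hyS⟩
        cases hwx : white x with
        | false =>
          refine ⟨?_, ?_, fun _ _ => ⟨?_, fun _ => ?_, fun h => by simp at h⟩⟩ <;>
            simp only [phi, sgn] <;> simp <;> omega
        | true =>
          have hwy : white y = false := by
            cases hwy : white y with
            | false => rfl
            | true =>
              obtain ⟨z, hz, hyz, hwz⟩ := k3 hwy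
              exact absurd ⟨hxy, hyz, by rw [hwx, hwy], by rw [hwy, hwz]; simp⟩
                (hE' x y z (mem_erase.2 ⟨hxa.ne, hx⟩) hyS' hz le_rfl)
          have := k2 hwy
          refine ⟨?_, ?_, fun _ _ => ⟨?_, fun h => by simp at h, fun _ => ⟨y, hyS', hxy, hwy⟩⟩⟩ <;>
            simp only [phi, sgn] <;> simp <;> omega
    · -- `x` stays inessential
      rw [if_neg (fun h => hE' h.1), add_zero] at hgs
      rw [hgs, exc_not hE, exc_not hE', hc1, hc2]
      rcases hya.eq_or_lt with rfl | hya'
      · rw [gain_top white hmax, if_pos rfl, exc_ess (ess_max white hmax)]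
        exact ⟨le_rfl, by simp, fun h => absurd h hE'⟩
      · obtain ⟨g1, g2, -⟩ := ih y hxy.lt hyS hya'
        rw [if_neg hya'.ne]
        refine ⟨g1, phi_mono_lip _ ?_ g1, fun h => absurd h hE'⟩
        linarith

theorem exc_same (forest : ∀ x y z : α, x ⋖ z → y ⋖ z → x = y) (white : α → Bool)
    {S : Finset α} (hS : Conv S) {a : α} (ha : a ∈ S) (hmax : ∀ b ∈ S, ¬ a < b)
    (hno : ∀ z ∈ S.erase a, EssIn white (S.erase a) z → EssIn white S z)
    (x : α) (hx : x ∈ S) (hxa : x < a) : exc white (S.erase a) x = exc white S x := by
  induction x using WellFoundedGT.induction with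
  | ind x ih =>
    obtain ⟨y, hxy, hya⟩ := exists_covBy_le_of_lt hxa
    have hyS : y ∈ S := by
      rcases hya.eq_or_lt with rfl | h
      · exact ha
      · exact hS x y a hx ha hxy.lt h
    obtain ⟨hc1, hc2⟩ := cs_split forest white hyS hxy hya
    have hcs : cs white (S.erase a) x = cs white S x := by
      rw [hc1, hc2]
      rcases hya.eq_or_lt with rfl | hya'
      · rw [if_pos rfl, exc_ess (ess_max white hmax)]
      · rw [if_neg hya'.ne, ih y hxy.lt hyS hya']
    rw [exc_eq, exc_eq, hcs]
    by_cases h : EssIn white S x
    · rw [if_pos h, if_pos (ess_erase a h)]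
    · rw [if_neg h, if_neg (fun h' => h (hno x (mem_erase.2 ⟨hxa.ne, hx⟩) h'))]

/-- Deleting a white element that is maximal but not minimal. -/
theorem val_erase_max (forest : ∀ x y z : α, x ⋖ z → y ⋖ z → x = y) (white : α → Bool)
    {S : Finset α} (hS : Conv S) {a : α} (ha : a ∈ S) (hmax : ∀ b ∈ S, ¬ a < b)
    (hw : white a = true) (hnm : ∃ b ∈ S, b < a) :
    val white (S.erase a) + 1 ≤ val white S ∧
    ((∀ z ∈ S.erase a, EssIn white (S.erase a) z → EssIn white S z) →
      val white (S.erase a) + 1 = val white S) := by
  obtain ⟨b0, hb0, hb0a⟩ := hnm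
  obtain ⟨x0, hx0, hx0min⟩ : ∃ x0 ∈ S.filter (fun z => z ≤ a), ∀ z ∈ S.filter (fun z => z ≤ a),
      ¬ z < x0 := by
    obtain ⟨x0, hx0⟩ := (S.filter (fun z => z ≤ a)).exists_minimal
      ⟨a, mem_filter.2 ⟨ha, le_rfl⟩⟩
    exact ⟨x0, hx0.1, fun z hz hlt => hx0.not_lt hz hlt⟩
  simp only [mem_filter] at hx0 hx0min
  have hx0m : ∀ b ∈ S, ¬ b < x0 := fun b hb hlt => hx0min b ⟨hb, hlt.le.trans hx0.2⟩ hlt
  have hx0a : x0 < a := lt_of_le_of_ne hx0.2 (fun e => hx0m b0 hb0 (e ▸ hb0a))
  -- essential part
  have h1 : ∑ x ∈ S.filter (fun x => EssIn white S x), sgn (white x) =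
      1 + ∑ x ∈ (S.erase a).filter (fun x => EssIn white S x), sgn (white x) := by
    have : S.filter (fun x => EssIn white S x) =
        insert a ((S.erase a).filter (fun x => EssIn white S x)) := by
      ext z
      simp only [mem_filter, mem_insert, mem_erase]
      constructor
      · rintro ⟨h, h'⟩
        by_cases hz : z = a
        · exact Or.inl hz
        · exact Or.inr ⟨⟨hz, h⟩, h'⟩
      · rintro (rfl | ⟨⟨_, h⟩, h'⟩)
        · exact ⟨ha, ess_max white hmax⟩
        · exact ⟨h, h'⟩
    rw [this, Finset.sum_insert (by simp), hw]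
    simp [sgn]
  have h2 : ∑ x ∈ (S.erase a).filter (fun x => EssIn white (S.erase a) x), sgn (white x) =
      ∑ x ∈ (S.erase a).filter (fun x => EssIn white S x), sgn (white x) +
        gain white S a x0 := by
    unfold gain
    rw [← Finset.sum_union]
    · refine Finset.sum_congr ?_ fun _ _ => rfl
      ext z
      simp only [mem_filter, mem_union]
      constructor
      · rintro ⟨h, h'⟩
        by_cases hz : EssIn white S z
        · exact Or.inl ⟨h, hz⟩
        · refine Or.inr ⟨h, ⟨h', hz⟩, ?_⟩
          have hza : z ≤ a := by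
            by_contra hc
            exact hz ((ess_local hc).1 h')
          rcases chain forest a z x0 hza hx0.2 with hc | hc
          · rcases hc.eq_or_lt with rfl | hc
            · exact le_rfl
            · exact absurd hc (hx0m z (mem_of_mem_erase h))
          · exact hc
      · rintro (⟨h, h'⟩ | ⟨h, h', _⟩)
        · exact ⟨h, ess_erase a h'⟩
        · exact ⟨h, h'.1⟩
    · rw [Finset.disjoint_left]
      intro z hz hz'
      simp only [mem_filter] at hz hz'
      exact hz'.2.1.2 hz.2
  -- minimal part
  have hmin : (S.erase a).filter (fun x => ∀ b ∈ S.erase a, ¬ b < x) =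
      S.filter (fun x => ∀ b ∈ S, ¬ b < x) := by
    ext z
    simp only [mem_filter, mem_erase]
    constructor
    · rintro ⟨⟨k1, k2⟩, k3⟩
      refine ⟨k2, fun b hb hlt => ?_⟩
      by_cases hba : b = a
      · rw [hba] at hlt
        exact hmax z k2 hlt
      · exact k3 b ⟨hba, hb⟩ hlt
    · rintro ⟨k1, k2⟩
      refine ⟨⟨fun e => ?_, k1⟩, fun b hb => k2 b hb.2⟩
      rw [e] at k2
      exact k2 b0 hb0 hb0a
  have hx0mem : x0 ∈ S.filter (fun x => ∀ b ∈ S, ¬ b < x) := mem_filter.2 ⟨hx0.1, hx0m⟩
  have h3 : ∑ x ∈ (S.erase a).filter (fun x => ∀ b ∈ S.erase a, ¬ b < x),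
      exc white (S.erase a) x = ∑ x ∈ S.filter (fun x => ∀ b ∈ S, ¬ b < x), exc white S x
        - exc white S x0 + exc white (S.erase a) x0 := by
    rw [hmin, ← Finset.add_sum_erase _ _ hx0mem, ← Finset.add_sum_erase _ (exc white S) hx0mem]
    have : ∑ x ∈ (S.filter (fun x => ∀ b ∈ S, ¬ b < x)).erase x0, exc white (S.erase a) x =
        ∑ x ∈ (S.filter (fun x => ∀ b ∈ S, ¬ b < x)).erase x0, exc white S x := by
      refine Finset.sum_congr rfl fun z hz => ?_
      simp only [mem_erase, mem_filter] at hz
      refine exc_local z fun hza => ?_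
      rcases chain forest a z x0 hza hx0.2 with hc | hc
      · exact hx0m z hz.2.1 (lt_of_le_of_ne hc hz.1)
      · exact hz.2.2 x0 hx0.1 (lt_of_le_of_ne hc (Ne.symm hz.1))
    rw [this]
    ring
  obtain ⟨k1, k2, -⟩ := key forest white hS ha hmax hw x0 hx0.1 hx0a
  refine ⟨?_, fun hno => ?_⟩
  · unfold val
    rw [h1, h2, h3]
    linarith
  · have hg : gain white S a x0 = 0 := by
      unfold gain
      refine Finset.sum_eq_zero fun z hz => ?_
      simp only [mem_filter] at hz
      exact absurd (hno z hz.1 hz.2.1.1) hz.2.1.2
    have he := exc_same forest white hS ha hmax hno x0 hx0.1 hx0a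
    unfold val
    rw [h1, h2, h3, hg, he]
    ring

/-- A white move lowers the value of the formula by at least one. -/
theorem val_white_move (forest : ∀ x y z : α, x ⋖ z → y ⋖ z → x = y) (white : α → Bool)
    {S : Finset α} (hS : Conv S) {a : α} (ha : a ∈ S) (hw : white a = true)
    (hext : (∀ b ∈ S, ¬ b < a) ∨ (∀ b ∈ S, ¬ a < b)) :
    val white (S.erase a) + 1 ≤ val white S := by
  by_cases hmin : ∀ b ∈ S, ¬ b < a
  · have h := val_erase_min forest white hS ha hmin
    by_cases hE : EssIn white S a
    · have hcs : cs white S a = 0 := by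
        refine Finset.sum_eq_zero fun v hv => ?_
        exact exc_ess (ess_up hE (mem_filter.1 hv).2.lt.le)
      rw [if_pos hE, exc_ess hE, hcs, hw] at h
      simp only [sgn] at h
      simp at h
      linarith
    · rw [if_neg hE, exc_not hE, hw] at h
      simp only [phi] at h
      simp at h
      omega
  · rcases hext with hext | hext
    · exact absurd hext hmin
    · push Not at hmin
      exact (val_erase_max forest white hS ha hext hw hmin).1

/-- If no white maximal element can be deleted without enlarging the essential part, then the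
essential part has at most as many white as black elements. -/
theorem exists_good (forest : ∀ x y z : α, x ⋖ z → y ⋖ z → x = y) (white : α → Bool)
    {S : Finset α} (hS : Conv S)
    (hpos : 0 < ∑ x ∈ S.filter (fun x => EssIn white S x), sgn (white x)) :
    ∃ a ∈ S, white a = true ∧ (∀ b ∈ S, ¬ a < b) ∧
      ∀ z ∈ S.erase a, EssIn white (S.erase a) z → EssIn white S z := by
  by_contra hcon
  push Not at hcon
  -- every non-maximal white essential element has a black cover in `S`
  have hblack : ∀ x : α, x ∈ S → EssIn white S x → white x = true → (∃ b ∈ S, x < b) →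
      ∃ y ∈ S, x ⋖ y ∧ white y = false := by
    intro x
    induction x using WellFoundedGT.induction with
    | ind x ih =>
      intro hx hE hwx ⟨b, hb, hxb⟩
      by_contra hno
      push Not at hno
      obtain ⟨x1, hx1, hx1b⟩ := exists_covBy_le_of_lt hxb
      have hx1S : x1 ∈ S := by
        rcases hx1b.eq_or_lt with rfl | h
        · exact hb
        · exact hS x x1 b hx hb hx1.lt h
      have hw1 : white x1 = true := by simpa using hno x1 hx1S hx1
      have hE1 : EssIn white S x1 := ess_up hE hx1.lt.le
      by_cases hm : ∃ b ∈ S, x1 < b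
      · obtain ⟨y, hy, hxy, hwy⟩ := ih x1 hx1.lt hx1S hE1 hw1 hm
        exact hE x x1 y hx hx1S hy le_rfl ⟨hx1, hxy, by rw [hwx, hw1], by rw [hw1, hwy]; simp⟩
      · push Not at hm
        obtain ⟨z, hz, hz', hz2⟩ := hcon x1 hx1S hw1 hm
        obtain ⟨u, v, _, _, _, _, hv1, _, hwv, _⟩ := new_ess white forest hm hw1 hz' hz2
        have : v = x := forest v x x1 hv1 hx1
        rw [this, hwx] at hwv
        exact absurd hwv (by simp)
  -- the relation used for the injection
  have hrel : ∀ x ∈ (S.filter (fun x => EssIn white S x)).filter (fun x => white x = true),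
      ∃ y ∈ (S.filter (fun x => EssIn white S x)).filter (fun x => ¬ white x = true),
        x ⋖ y ∨ (y ⋖ x ∧ (∀ b ∈ S, ¬ x < b) ∧ ∃ z u, EssIn white (S.erase x) z ∧ z ≤ u ∧ u ∈ S ∧
          u ⋖ y ∧ white u = false) := by
    intro x hx
    simp only [mem_filter] at hx
    by_cases hm : ∃ b ∈ S, x < b
    · obtain ⟨y, hy, hxy, hwy⟩ := hblack x hx.1.1 hx.1.2 hx.2 hm
      refine ⟨y, ?_, Or.inl hxy⟩
      simp only [mem_filter]
      exact ⟨⟨hy, ess_up hx.1.2 hxy.lt.le⟩, by rw [hwy]; simp⟩
    · push Not at hm
      obtain ⟨z, hz, hz', hz2⟩ := hcon x hx.1.1 hx.2 hm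
      obtain ⟨u, v, hu, hv, hzu, huv, hvx, hwu, hwv, hEv⟩ := new_ess white forest hm hx.2 hz' hz2
      refine ⟨v, ?_, Or.inr ⟨hvx, hm, z, u, hz', hzu, hu, huv, hwu⟩⟩
      simp only [mem_filter]
      exact ⟨⟨hv, hEv⟩, by rw [hwv]; simp⟩
  choose! g hg hg2 using hrel
  have hcard : ((S.filter (fun x => EssIn white S x)).filter (fun x => white x = true)).card ≤
      ((S.filter (fun x => EssIn white S x)).filter (fun x => ¬ white x = true)).card := by
    refine Finset.card_le_card_of_injOn g (fun x hx => hg x hx) ?_
    intro x1 h1 x2 h2 he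
    have hx1 := hg2 x1 h1
    have hx2 := hg2 x2 h2
    have hy := hg x1 h1
    simp only [Finset.coe_filter, Set.mem_ofPred_eq, mem_filter] at h1 h2 hy
    rw [← he] at hx2
    rcases hx1 with hx1 | ⟨hy1, hm1, z1, u1, hz1, hzu1, hu1, huy1, hwu1⟩
    · rcases hx2 with hx2 | ⟨hy2, hm2, z2, u2, hz2, hzu2, hu2, huy2, hwu2⟩
      · exact forest _ _ _ hx1 hx2
      · have : x1 = u2 := forest _ _ _ hx1 huy2
        rw [← this, h1.2] at hwu2
        exact absurd hwu2 (by simp)
    · rcases hx2 with hx2 | ⟨hy2, hm2, z2, u2, hz2, hzu2, hu2, huy2, hwu2⟩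
      · have : x2 = u1 := forest _ _ _ hx2 huy1
        rw [← this, h2.2] at hwu1
        exact absurd hwu1 (by simp)
      · by_contra hne
        refine hz1 u1 (g x1) x2 ?_ ?_ ?_ hzu1 ⟨huy1, hy2, ?_, ?_⟩
        · exact mem_erase.2 ⟨(huy1.lt.trans hy1.lt).ne, hu1⟩
        · exact mem_erase.2 ⟨hy1.lt.ne, hy.1.1⟩
        · exact mem_erase.2 ⟨fun e => hne e.symm, h2.1.1⟩
        · rw [hwu1]
          simpa using hy.2
        · rw [h2.2]
          exact hy.2
  have hsum : ∑ x ∈ S.filter (fun x => EssIn white S x), sgn (white x) =
      (((S.filter (fun x => EssIn white S x)).filter (fun x => white x = true)).card : ℤ) -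
      (((S.filter (fun x => EssIn white S x)).filter (fun x => ¬ white x = true)).card : ℤ) := by
    rw [← Finset.sum_filter_add_sum_filter_not _ (fun x => white x = true)]
    rw [Finset.sum_congr rfl (g := fun _ => (1 : ℤ)) (fun x hx => by
      simp only [mem_filter] at hx; simp [sgn, hx.2])]
    rw [Finset.sum_congr (s₁ := (S.filter (fun x => EssIn white S x)).filter
      (fun x => ¬ white x = true)) rfl (g := fun _ => (-1 : ℤ)) (fun x hx => by
      simp only [mem_filter] at hx; simp [sgn, hx.2])]
    simp
    ring
  rw [hsum] at hpos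
  have : (((S.filter (fun x => EssIn white S x)).filter (fun x => white x = true)).card : ℤ) ≤
      (((S.filter (fun x => EssIn white S x)).filter (fun x => ¬ white x = true)).card : ℤ) := by
    exact_mod_cast hcard
  linarith

/-- If the formula is positive, then White has a move that lowers it by exactly one. -/
theorem val_white_exists (forest : ∀ x y z : α, x ⋖ z → y ⋖ z → x = y) (white : α → Bool)
    {S : Finset α} (hS : Conv S) (hpos : 0 < val white S) :
    ∃ a ∈ S, white a = true ∧ ((∀ b ∈ S, ¬ b < a) ∨ (∀ b ∈ S, ¬ a < b)) ∧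
      val white S - 1 ≤ val white (S.erase a) := by
  by_cases h1 : 0 < ∑ x ∈ S.filter (fun x => EssIn white S x), sgn (white x)
  · obtain ⟨a, ha, hw, hmax, hno⟩ := exists_good forest white hS h1
    refine ⟨a, ha, hw, Or.inr hmax, ?_⟩
    by_cases hmin : ∀ b ∈ S, ¬ b < a
    · have h := val_erase_min forest white hS ha hmin
      have hE : EssIn white S a := ess_max white hmax
      have hcs : cs white S a = 0 := by
        refine Finset.sum_eq_zero fun v hv => ?_
        exact exc_ess (ess_up hE (mem_filter.1 hv).2.lt.le)
      rw [if_pos hE, exc_ess hE, hcs, hw] at h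
      simp only [sgn] at h
      simp at h
      linarith
    · push Not at hmin
      have := (val_erase_max forest white hS ha hmax hw hmin).2 hno
      linarith
  · have h2 : 0 < ∑ x ∈ S.filter (fun x => ∀ b ∈ S, ¬ b < x), exc white S x := by
      unfold val at hpos
      linarith
    obtain ⟨r, hr, hpr⟩ : ∃ r ∈ S.filter (fun x => ∀ b ∈ S, ¬ b < x), 0 < exc white S r := by
      by_contra hc
      push Not at hc
      exact absurd h2 (not_lt.2 (Finset.sum_nonpos hc))
    simp only [mem_filter] at hr
    have hE : ¬ EssIn white S r := fun h => by rw [exc_ess h] at hpr; exact lt_irrefl _ hpr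
    have hw : white r = true := by
      by_contra hw
      rw [exc_not hE] at hpr
      simp only [phi, hw] at hpr
      simp at hpr
    refine ⟨r, hr.1, hw, Or.inl hr.2, ?_⟩
    have h := val_erase_min forest white hS hr.1 hr.2
    rw [if_neg hE] at h
    rw [exc_not hE, hw] at h hpr
    simp only [phi] at h hpr
    simp at h hpr
    omega

/-! Exchanging the colors -/

theorem blocking_neg (white : α → Bool) (x y z : α) :
    Blocking (fun x => !white x) x y z ↔ Blocking white x y z := by
  unfold Blocking
  simp

theorem ess_neg (white : α → Bool) (S : Finset α) (x : α) :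
    EssIn (fun x => !white x) S x ↔ EssIn white S x := by
  unfold EssIn
  simp only [blocking_neg]

theorem exc_neg (white : α → Bool) (S : Finset α) (x : α) :
    exc (fun x => !white x) S x = - exc white S x := by
  induction x using WellFoundedGT.induction with
  | ind x ih =>
    rw [exc_eq, exc_eq]
    have : cs (fun x => !white x) S x = - cs white S x := by
      unfold cs
      rw [← Finset.sum_neg_distrib]
      exact Finset.sum_congr rfl fun y hy => ih y (mem_filter.1 hy).2.lt
    rw [this]
    by_cases h : EssIn white S x
    · rw [if_pos h, if_pos ((ess_neg white S x).2 h), neg_zero]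
    · rw [if_neg h, if_neg (fun h' => h ((ess_neg white S x).1 h'))]
      unfold phi
      cases white x <;> simp <;> omega

theorem val_neg (white : α → Bool) (S : Finset α) :
    val (fun x => !white x) S = - val white S := by
  unfold val
  rw [neg_add, ← Finset.sum_neg_distrib, ← Finset.sum_neg_distrib]
  congr 1
  · refine Finset.sum_congr ?_ fun x _ => ?_
    · ext x; simp only [mem_filter, ess_neg]
    · cases h : white x <;> simp [sgn, h]
  · exact Finset.sum_congr rfl fun x _ => exc_neg white S x

end Rel

/-! ### From the formula to the game -/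

theorem leftWins_true_iff {X : Type u} (A : Ruleset X) (p : X) :
    LeftWins A true p ↔ ∃ q, A.left p q ∧ LeftWins A false q := by
  constructor
  · intro h
    cases h with
    | toMove _ q h1 h2 => exact ⟨q, h1, h2⟩
  · rintro ⟨q, h1, h2⟩
    exact LeftWins.toMove p q h1 h2

theorem leftWins_false_iff {X : Type u} (A : Ruleset X) (p : X) :
    LeftWins A false p ↔ ∀ q, A.right p q → LeftWins A true q := by
  constructor
  · intro h
    cases h with
    | waiting _ h1 => exact h1
  · intro h
    exact LeftWins.waiting p h

theorem value_aux {P : Type u} (R : Ruleset P) (ok : P → Prop) (rank : P → ℕ) (f : P → ℤ)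
    (hL : ∀ p q, ok p → R.left p q → ok q ∧ rank q < rank p ∧ f q + 1 ≤ f p)
    (hR : ∀ p q, ok p → R.right p q → ok q ∧ rank q < rank p ∧ f p + 1 ≤ f q)
    (hL' : ∀ p, ok p → 0 < f p → ∃ q, R.left p q ∧ f p - 1 ≤ f q)
    (hR' : ∀ p, ok p → f p < 0 → ∃ q, R.right p q ∧ f q ≤ f p + 1) (n : ℕ) :
    ∀ p m, ok p → rank p + m.natAbs = n →
      (LeftWins (R.sub integerGame) false (p, m) ↔ m ≤ f p) ∧
      (LeftWins (R.sub integerGame) true (p, m) ↔ m < f p) := by
  induction n using Nat.strong_induction_on with
  | _ n ih =>
    intro p m hok hn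
    constructor
    · rw [leftWins_false_iff]
      constructor
      · intro h
        by_cases hm : 0 < m
        · have h1 := h (p, m - 1) (Or.inr ⟨rfl, hm, rfl⟩)
          have h2 := (ih (rank p + (m - 1).natAbs) (by omega) p (m - 1) hok rfl).2.1 h1
          omega
        · by_contra hc
          obtain ⟨q, hq, hq2⟩ := hR' p hok (by omega)
          obtain ⟨k1, k2, k3⟩ := hR p q hok hq
          have h1 := h (q, m) (Or.inl ⟨hq, rfl⟩)
          have h2 := (ih (rank q + m.natAbs) (by omega) q m k1 rfl).2.1 h1
          omega
      · rintro h ⟨q, m'⟩ (⟨h1, h2⟩ | ⟨h1, h2, h3⟩)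
        · simp only at h1 h2
          subst h2
          obtain ⟨k1, k2, k3⟩ := hR p q hok h1
          exact (ih (rank q + m'.natAbs) (by omega) q m' k1 rfl).2.2 (by omega)
        · simp only at h1 h2 h3
          subst h1 h3
          exact (ih (rank q + (m - 1).natAbs) (by omega) q (m - 1) hok rfl).2.2 (by omega)
    · rw [leftWins_true_iff]
      constructor
      · rintro ⟨⟨q, m'⟩, (⟨h1, h2⟩ | ⟨h1, h2, h3⟩), h4⟩
        · simp only at h1 h2
          subst h2
          obtain ⟨k1, k2, k3⟩ := hL p q hok h1
          have := (ih (rank q + m'.natAbs) (by omega) q m' k1 rfl).1.1 h4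
          omega
        · simp only at h1 h2 h3
          subst h1 h3
          have := (ih (rank q + (m + 1).natAbs) (by omega) q (m + 1) hok rfl).1.1 h4
          omega
      · intro h
        by_cases hm : m < 0
        · refine ⟨(p, m + 1), Or.inr ⟨rfl, hm, rfl⟩, ?_⟩
          exact (ih (rank p + (m + 1).natAbs) (by omega) p (m + 1) hok rfl).1.2 (by omega)
        · obtain ⟨q, hq, hq2⟩ := hL' p hok (by omega)
          obtain ⟨k1, k2, k3⟩ := hL p q hok hq
          refine ⟨(q, m), Or.inl ⟨hq, rfl⟩, ?_⟩
          exact (ih (rank q + m.natAbs) (by omega) q m k1 rfl).1.2 (by omega)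

theorem swap_sub {P : Type u} (R : Ruleset P) (b : Bool) (p : P) (m : ℤ) :
    LeftWins (R.sub integerGame).swap b (p, m) ↔ LeftWins (R.swap.sub integerGame) b (p, -m) := by
  constructor
  · intro h
    generalize hx : (p, m) = x at h
    induction h generalizing p m with
    | toMove x y h1 h2 ih =>
      subst hx
      obtain ⟨q, m'⟩ := y
      refine LeftWins.toMove _ (q, -m') ?_ (ih q m' rfl)
      rcases h1 with ⟨h1, h3⟩ | ⟨h1, h3, h4⟩
      · simp only at h1 h3
        subst h3
        exact Or.inl ⟨h1, rfl⟩
      · simp only at h1 h3 h4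
        subst h1 h4
        exact Or.inr ⟨rfl, by simpa using h3, by simp only; ring⟩
    | waiting x h1 ih =>
      subst hx
      refine LeftWins.waiting _ ?_
      rintro ⟨q, m'⟩ h2
      have hgoal : LeftWins (R.swap.sub integerGame) true (q, - (-m')) := by
        refine ih (q, -m') ?_ q (-m') rfl
        rcases h2 with ⟨h2, h3⟩ | ⟨h2, h3, h4⟩
        · simp only at h2 h3
          refine Or.inl ⟨h2, ?_⟩
          simp only
          rw [h3]; ring
        · simp only at h2 h3 h4
          refine Or.inr ⟨h2, ?_, ?_⟩
          · simp only; omega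
          · simp only; omega
      simpa using hgoal
  · intro h
    generalize hx : (p, -m) = x at h
    induction h generalizing p m with
    | toMove x y h1 h2 ih =>
      subst hx
      obtain ⟨q, m'⟩ := y
      refine LeftWins.toMove _ (q, -m') ?_ (ih q (-m') (by simp))
      rcases h1 with ⟨h1, h3⟩ | ⟨h1, h3, h4⟩
      · simp only at h1 h3
        refine Or.inl ⟨h1, ?_⟩
        simp only
        rw [h3]; ring
      · simp only at h1 h3 h4
        subst h1
        refine Or.inr ⟨rfl, ?_, ?_⟩
        · simp only; omega
        · simp only; omega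
    | waiting x h1 ih =>
      subst hx
      refine LeftWins.waiting _ ?_
      rintro ⟨q, m'⟩ h2
      refine ih (q, -m') ?_ q m' rfl
      rcases h2 with ⟨h2, h3⟩ | ⟨h2, h3, h4⟩
      · simp only at h2 h3
        subst h3
        exact Or.inl ⟨h2, rfl⟩
      · simp only at h2 h3 h4
        subst h2
        refine Or.inr ⟨rfl, ?_, ?_⟩
        · simp only; omega
        · simp only; omega

/-! ### The closed form -/

section Closed

open Classical

variable {α : Type u} [PartialOrder α] [Fintype α]

/-- The inessential elements that lie (weakly) above no element of `A` and no element of `B`. -/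
noncomputable def remaining (white : α → Bool) (A B : Finset α) : Finset α :=
  univ.filter fun y => ¬ Essential white y ∧ (∀ z ∈ A, ¬ z ≤ y) ∧ ∀ z ∈ B, ¬ z ≤ y

/-- The closed form of the second summand: White chooses a set `A` of white elements, then Black
chooses a set `B` of black elements, everything above a chosen element is discarded, and the score
is the number of white minus the number of black among the remaining inessential elements; White
maximizes and Black minimizes. -/
noncomputable def maxMin (white : α → Bool) : ℤ :=
  (univ.filter fun x => white x = true).powerset.sup' ⟨∅, by simp⟩ fun A =>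
    (univ.filter fun x => white x = false).powerset.inf' ⟨∅, by simp⟩ fun B =>
      ∑ y ∈ remaining white A B, sgn (white y)

/-- auxiliary: the part of `remaining` above `x`, where only cuts above `x` count -/
noncomputable def rem (white : α → Bool) (A B : Finset α) (x : α) : Finset α :=
  univ.filter fun y => x ≤ y ∧ ¬ Essential white y ∧ (∀ z ∈ A, x ≤ z → ¬ z ≤ y) ∧
    ∀ z ∈ B, x ≤ z → ¬ z ≤ y

theorem essential_up {white : α → Bool} {x y : α} (h : Essential white x) (hxy : x ≤ y) :
    Essential white y := fun a b c hya => h a b c (hxy.trans hya)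

theorem excess_eq (white : α → Bool) (x : α) :
    excess white x = if Essential white x then 0 else
      phi (white x) (∑ y ∈ univ.filter (fun y => x ⋖ y), excess white y) := by
  rw [excess]
  have : ∑ y : {y : α // x ⋖ y}, excess white y.1 =
      ∑ y ∈ univ.filter (fun y => x ⋖ y), excess white y := by
    rw [← Finset.sum_subtype (p := fun y => x ⋖ y) (f := fun y => excess white y)]
    intro y
    simp
  rw [this]
  rfl

theorem rem_ess {white : α → Bool} {A B : Finset α} {x : α} (h : Essential white x) :
    rem white A B x = ∅ := by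
  unfold rem
  rw [Finset.filter_eq_empty_iff]
  rintro y - ⟨hxy, hy, -⟩
  exact hy (essential_up h hxy)

theorem rem_left {white : α → Bool} {A B : Finset α} {x : α} (h : x ∈ A) :
    rem white A B x = ∅ := by
  unfold rem
  rw [Finset.filter_eq_empty_iff]
  rintro y - ⟨hxy, -, hA, -⟩
  exact hA x h le_rfl hxy

theorem rem_right {white : α → Bool} {A B : Finset α} {x : α} (h : x ∈ B) :
    rem white A B x = ∅ := by
  unfold rem
  rw [Finset.filter_eq_empty_iff]
  rintro y - ⟨hxy, -, -, hB⟩
  exact hB x h le_rfl hxy

theorem rem_step (forest : ∀ x y z : α, x ⋖ z → y ⋖ z → x = y) {white : α → Bool}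
    {A B : Finset α} {x : α} (h : ¬ Essential white x) (hA : x ∉ A) (hB : x ∉ B) :
    ∑ y ∈ rem white A B x, sgn (white y) = sgn (white x) +
      ∑ c ∈ univ.filter (fun c => x ⋖ c), ∑ y ∈ rem white A B c, sgn (white y) := by
  have hrem : rem white A B x =
      insert x ((univ.filter (fun c => x ⋖ c)).biUnion (rem white A B)) := by
    ext y
    simp only [rem, mem_filter, mem_univ, true_and, mem_insert, mem_biUnion]
    constructor
    · rintro ⟨hxy, hy, h1, h2⟩
      rcases hxy.eq_or_lt with rfl | hxy
      · exact Or.inl rfl
      · obtain ⟨c, hc, hcy⟩ := exists_covBy_le_of_lt hxy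
        exact Or.inr ⟨c, hc, hcy, hy, fun z hz hcz => h1 z hz (hc.lt.le.trans hcz),
          fun z hz hcz => h2 z hz (hc.lt.le.trans hcz)⟩
    · rintro (rfl | ⟨c, hc, hcy, hy, h1, h2⟩)
      · refine ⟨le_rfl, h, fun z hz hyz hzy => ?_, fun z hz hyz hzy => ?_⟩
        · exact hA (le_antisymm hyz hzy ▸ hz)
        · exact hB (le_antisymm hyz hzy ▸ hz)
      · have aux : ∀ z, x ≤ z → z ≤ y → z = x ∨ c ≤ z := by
          intro z hxz hzy
          rcases chain forest y c z hcy hzy with hh | hh
          · exact Or.inr hh
          · rcases hh.eq_or_lt with rfl | hh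
            · exact Or.inr le_rfl
            · left
              rcases hxz.eq_or_lt with rfl | hxz
              · rfl
              · exact absurd hh (hc.2 hxz)
        refine ⟨hc.lt.le.trans hcy, hy, fun z hz hxz hzy => ?_, fun z hz hxz hzy => ?_⟩
        · rcases aux z hxz hzy with rfl | hcz
          · exact hA hz
          · exact h1 z hz hcz hzy
        · rcases aux z hxz hzy with rfl | hcz
          · exact hB hz
          · exact h2 z hz hcz hzy
  rw [hrem, Finset.sum_insert, Finset.sum_biUnion]
  · intro c1 h1 c2 h2 hne
    simp only [coe_filter, mem_univ, true_and, Set.mem_ofPred_eq] at h1 h2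
    simp only [Function.onFun]
    rw [Finset.disjoint_left]
    intro y hy1 hy2
    simp only [rem, mem_filter, mem_univ, true_and] at hy1 hy2
    rcases chain forest y c1 c2 hy1.1 hy2.1 with hh | hh
    · exact h2.2 h1.lt (lt_of_le_of_ne hh hne)
    · exact h1.2 h2.lt (lt_of_le_of_ne hh (Ne.symm hne))
  · simp only [rem, mem_filter, mem_univ, true_and, mem_biUnion]
    rintro ⟨c, hc, hcx, -⟩
    exact absurd hc.lt (not_lt_of_ge hcx)

theorem remaining_eq (forest : ∀ x y z : α, x ⋖ z → y ⋖ z → x = y) (white : α → Bool)
    (A B : Finset α) : ∑ y ∈ remaining white A B, sgn (white y) =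
      ∑ x ∈ univ.filter (fun x : α => IsMin x), ∑ y ∈ rem white A B x, sgn (white y) := by
  have h : remaining white A B =
      (univ.filter (fun x : α => IsMin x)).biUnion (rem white A B) := by
    ext y
    simp only [remaining, rem, mem_filter, mem_univ, true_and, mem_biUnion]
    constructor
    · rintro ⟨h1, h2, h3⟩
      obtain ⟨m, hm⟩ := (univ.filter (fun z : α => z ≤ y)).exists_minimal
        ⟨y, mem_filter.2 ⟨mem_univ _, le_rfl⟩⟩
      have hmy : m ≤ y := (mem_filter.1 hm.1).2
      refine ⟨m, ?_, hmy, h1, fun z hz _ => h2 z hz, fun z hz _ => h3 z hz⟩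
      intro b hb
      exact hm.2 (mem_filter.2 ⟨mem_univ _, hb.trans hmy⟩) hb
    · rintro ⟨m, hm, hmy, h1, h2, h3⟩
      have aux : ∀ z, z ≤ y → m ≤ z := by
        intro z hzy
        rcases chain forest y m z hmy hzy with hh | hh
        · exact hh
        · exact hm hh
      exact ⟨h1, fun z hz hzy => h2 z hz (aux z hzy) hzy, fun z hz hzy => h3 z hz (aux z hzy) hzy⟩
  rw [h, Finset.sum_biUnion]
  intro c1 h1 c2 h2 hne
  simp only [coe_filter, mem_univ, true_and, Set.mem_ofPred_eq] at h1 h2
  simp only [Function.onFun]
  rw [Finset.disjoint_left]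
  intro y hy1 hy2
  simp only [rem, mem_filter, mem_univ, true_and] at hy1 hy2
  rcases chain forest y c1 c2 hy1.1 hy2.1 with hh | hh
  · exact hne (le_antisymm hh (h2 hh))
  · exact hne (le_antisymm (h1 hh) hh)

/-- The optimal white cut set. -/
noncomputable def optA (white : α → Bool) : Finset α :=
  univ.filter fun x => white x = true ∧ excess white x = 0

/-- The optimal black cut set. -/
noncomputable def optB (white : α → Bool) : Finset α :=
  univ.filter fun x => white x = false ∧ excess white x = 0

theorem lower (forest : ∀ x y z : α, x ⋖ z → y ⋖ z → x = y) (white : α → Bool) (B : Finset α)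
    (hB : ∀ x ∈ B, white x = false) (x : α) :
    excess white x ≤ ∑ y ∈ rem white (optA white) B x, sgn (white y) := by
  induction x using WellFoundedGT.induction with
  | ind x ih =>
    by_cases hE : Essential white x
    · rw [rem_ess hE, excess_eq, if_pos hE]; simp
    by_cases hA : x ∈ optA white
    · rw [rem_left hA]
      simp only [optA, mem_filter, mem_univ, true_and] at hA
      rw [hA.2]; simp
    have hsum : ∑ y ∈ univ.filter (fun y => x ⋖ y), excess white y ≤
        ∑ c ∈ univ.filter (fun c => x ⋖ c), ∑ y ∈ rem white (optA white) B c, sgn (white y) :=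
      Finset.sum_le_sum fun c hc => ih c (mem_filter.1 hc).2.lt
    have he := excess_eq white x
    rw [if_neg hE] at he
    cases hw : white x with
    | true =>
      have hxB : x ∉ B := fun h => by rw [hB x h] at hw; exact absurd hw (by simp)
      rw [rem_step forest hE hA hxB, hw]
      have hne : excess white x ≠ 0 := fun h => hA (by
        simp only [optA, mem_filter, mem_univ, true_and]; exact ⟨hw, h⟩)
      rw [hw] at he
      simp only [phi, if_true] at he
      have hs : sgn true = 1 := rfl
      rw [hs]
      omega
    | false =>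
      rw [hw] at he
      simp only [phi] at he
      simp only [Bool.false_eq_true, if_false] at he
      by_cases hxB : x ∈ B
      · rw [rem_right hxB]
        simp only [sum_empty]
        omega
      · rw [rem_step forest hE hA hxB, hw]
        have hs : sgn false = -1 := rfl
        rw [hs]
        omega

theorem upper (forest : ∀ x y z : α, x ⋖ z → y ⋖ z → x = y) (white : α → Bool) (A : Finset α)
    (hA : ∀ x ∈ A, white x = true) (x : α) :
    ∑ y ∈ rem white A (optB white) x, sgn (white y) ≤ excess white x := by
  induction x using WellFoundedGT.induction with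
  | ind x ih =>
    by_cases hE : Essential white x
    · rw [rem_ess hE, excess_eq, if_pos hE]; simp
    by_cases hB : x ∈ optB white
    · rw [rem_right hB]
      simp only [optB, mem_filter, mem_univ, true_and] at hB
      rw [hB.2]; simp
    have hsum : ∑ c ∈ univ.filter (fun c => x ⋖ c), ∑ y ∈ rem white A (optB white) c,
        sgn (white y) ≤ ∑ y ∈ univ.filter (fun y => x ⋖ y), excess white y :=
      Finset.sum_le_sum fun c hc => ih c (mem_filter.1 hc).2.lt
    have he := excess_eq white x
    rw [if_neg hE] at he
    cases hw : white x with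
    | false =>
      have hxA : x ∉ A := fun h => by rw [hA x h] at hw; exact absurd hw (by simp)
      rw [rem_step forest hE hxA hB, hw]
      have hne : excess white x ≠ 0 := fun h => hB (by
        simp only [optB, mem_filter, mem_univ, true_and]; exact ⟨hw, h⟩)
      rw [hw] at he
      simp only [phi, Bool.false_eq_true, if_false] at he
      have hs : sgn false = -1 := rfl
      rw [hs]
      omega
    | true =>
      rw [hw] at he
      simp only [phi, if_true] at he
      by_cases hxA : x ∈ A
      · rw [rem_left hxA]
        simp only [sum_empty]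
        omega
      · rw [rem_step forest hE hxA hB, hw]
        have hs : sgn true = 1 := rfl
        rw [hs]
        omega

theorem maxMin_eq (forest : ∀ x y z : α, x ⋖ z → y ⋖ z → x = y) (white : α → Bool) :
    maxMin white = ∑ x ∈ univ.filter (fun x : α => IsMin x), excess white x := by
  unfold maxMin
  apply le_antisymm
  · refine Finset.sup'_le _ _ fun A hA => ?_
    have hB : optB white ∈ (univ.filter fun x => white x = false).powerset := by
      rw [mem_powerset]
      intro x hx
      simp only [optB, mem_filter, mem_univ, true_and] at hx ⊢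
      exact hx.1
    refine (Finset.inf'_le _ hB).trans ?_
    rw [remaining_eq forest]
    refine Finset.sum_le_sum fun x _ => upper forest white A (fun y hy => ?_) x
    have := (mem_powerset.1 hA) hy
    simpa using this
  · have hA : optA white ∈ (univ.filter fun x => white x = true).powerset := by
      rw [mem_powerset]
      intro x hx
      simp only [optA, mem_filter, mem_univ, true_and] at hx ⊢
      exact hx.1
    refine le_trans ?_ (Finset.le_sup' _ hA)
    refine Finset.le_inf' _ _ fun B hB => ?_
    rw [remaining_eq forest]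
    refine Finset.sum_le_sum fun x _ => lower forest white B (fun y hy => ?_) x
    have := (mem_powerset.1 hB) hy
    simpa using this

theorem essIn_univ (white : α → Bool) (x : α) :
    EssIn white univ x ↔ Essential white x := by
  unfold EssIn Essential
  simp

theorem exc_univ [DecidableEq α] (white : α → Bool) (x : α) :
    exc white univ x = excess white x := by
  induction x using WellFoundedGT.induction with
  | ind x ih =>
    rw [exc_eq, excess_eq]
    have : cs white univ x = ∑ y ∈ univ.filter (fun y => x ⋖ y), excess white y := by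
      unfold cs
      exact Finset.sum_congr rfl fun y hy => ih y (mem_filter.1 hy).2.lt
    rw [this]
    by_cases h : Essential white x
    · rw [if_pos h, if_pos ((essIn_univ white x).2 h)]
    · rw [if_neg h, if_neg (fun h' => h ((essIn_univ white x).1 h'))]

theorem val_univ [DecidableEq α] (white : α → Bool) :
    val white univ = ∑ x ∈ univ.filter (fun x => Essential white x), sgn (white x) +
      ∑ x ∈ univ.filter (fun x : α => IsMin x), excess white x := by
  unfold val
  congr 1
  · refine Finset.sum_congr ?_ fun _ _ => rfl
    ext x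
    simp only [mem_filter, mem_univ, true_and, essIn_univ]
  · refine Finset.sum_congr ?_ fun x _ => exc_univ white x
    ext x
    simp only [mem_filter, mem_univ, true_and, true_implies]
    exact isMin_iff_forall_not_lt.symm

end Closed

open Classical in
/-- **Value of the min-max-removal game on an arbitrary colored forest poset.**

Let `P` be a finite forest poset (every element covers at most one element), colored arbitrarily.
Let `U` be its essential part, the largest upper set without a blocking triple. Then the
min-max-removal game on `P` equals the integer `w(U) - b(U) + M`, where `M` is the score of the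
one-round cutting contest `maxMin` on `P \ U`. The number `M` is also the sum, over the minimal
elements `x` of `P`, of the numbers `excess white x` given by the recursion
`e(x) = 0` on `U`, and `e(x) = max 0 (1 + s)` (white) or `min 0 (-1 + s)` (black) outside `U`,
with `s` the sum of `e(y)` over the covers `y` of `x`. -/
theorem result {α : Type u} [PartialOrder α] [Fintype α] [DecidableEq α] (white : α → Bool)
    (forest : ∀ x y z : α, x ⋖ z → y ⋖ z → x = y) :
    (∀ n : ℤ, SameValue (minMaxRemoval white) (Finset.univ : Finset α) integerGame n ↔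
      n = ∑ x ∈ univ.filter (fun x => Essential white x), sgn (white x) + maxMin white) ∧
    maxMin white = ∑ x ∈ univ.filter (fun x : α => IsMin x), excess white x := by
  refine ⟨fun n => ?_, maxMin_eq forest white⟩
  rw [maxMin_eq forest, ← val_univ]
  have hconv : Conv (univ : Finset α) := fun _ _ _ _ _ _ _ => mem_univ _
  have hmain : ∀ m : ℤ, LeftWins ((minMaxRemoval white).sub integerGame) false (univ, m) ↔
      m ≤ val white univ := by
    intro m
    refine (value_aux (minMaxRemoval white) Conv Finset.card (val white) ?_ ?_ ?_ ?_ _ univ m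
      hconv rfl).1
    · rintro S T hS ⟨a, ha, hw, hext, rfl⟩
      exact ⟨conv_erase hS hext, Finset.card_erase_lt_of_mem ha,
        val_white_move forest white hS ha hw hext⟩
    · rintro S T hS ⟨a, ha, hw, hext, rfl⟩
      refine ⟨conv_erase hS hext, Finset.card_erase_lt_of_mem ha, ?_⟩
      have := val_white_move forest (fun x => !white x) hS ha (by simp [hw]) hext
      rw [val_neg, val_neg] at this
      linarith
    · intro S hS hpos
      obtain ⟨a, ha, hw, hext, h⟩ := val_white_exists forest white hS hpos
      exact ⟨S.erase a, ⟨a, ha, hw, hext, rfl⟩, h⟩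
    · intro S hS hneg
      obtain ⟨a, ha, hw, hext, h⟩ := val_white_exists forest (fun x => !white x) hS
        (by rw [val_neg]; linarith)
      rw [val_neg, val_neg] at h
      exact ⟨S.erase a, ⟨a, ha, by simpa using hw, hext, rfl⟩, by linarith⟩
  have hmain' : ∀ m : ℤ, LeftWins ((minMaxRemoval white).sub integerGame).swap false (univ, m) ↔
      val white univ ≤ m := by
    intro m
    rw [swap_sub]
    have := (value_aux (minMaxRemoval white).swap Conv Finset.card (fun S => - val white S)
      ?_ ?_ ?_ ?_ _ univ (-m) hconv rfl).1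
    · rw [this]
      constructor <;> intro h <;> linarith
    · rintro S T hS ⟨a, ha, hw, hext, rfl⟩
      refine ⟨conv_erase hS hext, Finset.card_erase_lt_of_mem ha, ?_⟩
      have := val_white_move forest (fun x => !white x) hS ha (by simp [hw]) hext
      rw [val_neg, val_neg] at this
      linarith
    · rintro S T hS ⟨a, ha, hw, hext, rfl⟩
      refine ⟨conv_erase hS hext, Finset.card_erase_lt_of_mem ha, ?_⟩
      have := val_white_move forest white hS ha hw hext
      linarith
    · intro S hS hneg
      obtain ⟨a, ha, hw, hext, h⟩ := val_white_exists forest (fun x => !white x) hS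
        (by rw [val_neg]; linarith)
      rw [val_neg, val_neg] at h
      exact ⟨S.erase a, ⟨a, ha, by simpa using hw, hext, rfl⟩, by linarith⟩
    · intro S hS hpos
      obtain ⟨a, ha, hw, hext, h⟩ := val_white_exists forest white hS (by linarith)
      exact ⟨S.erase a, ⟨a, ha, hw, hext, rfl⟩, by linarith⟩
  unfold SameValue
  rw [hmain, hmain']
  constructor
  · rintro ⟨h1, h2⟩; exact le_antisymm h1 h2
  · rintro rfl; exact ⟨le_rfl, le_rfl⟩

end Pool.Agent.Results.MP_488bb9_co.MinMaxForest
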